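import Mathlib
import Pool.Agent.Q109.SubSep

/-!
The separator exponent versus the expansion exponent: `c* ≥ 1`.
-/

set_option autoImplicit false

namespace Pool.Agent.Results.MP_2f3b43_co.ExponentAtLeastOne

open Filter Asymptotics

/-- A class of finite graphs (given as a predicate) is monotone: closed under taking subgraphs (up
to isomorphism). -/
def IsMonotone (C : (V : Type) → SimpleGraph V → Prop) : Prop :=
  ∀ (V W : Type) (_ : Finite V) (_ : Finite W) (G : SimpleGraph V) (H : SimpleGraph W),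
    H.IsContained G → C V G → C W H

/-- `S` is a balanced separator of the graph `G` with `n` vertices: every component of `G - S` has
at most `2n/3` vertices. -/
def IsBalancedSeparator {V : Type} (G : SimpleGraph V) (S : Set V) : Prop :=
  ∀ c : (G.induce Sᶜ).ConnectedComponent, 3 * c.supp.ncard ≤ 2 * Nat.card V

/-- Every `n`-vertex graph of the class has a balanced separator of order `O(n^e)`. -/
def HasSeparators (C : (V : Type) → SimpleGraph V → Prop) (e : ℝ) : Prop :=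
  ∃ K : ℝ, ∀ (V : Type) (_ : Finite V) (_ : Nonempty V) (G : SimpleGraph V), C V G →
    ∃ S : Set V, IsBalancedSeparator G S ∧ (S.ncard : ℝ) ≤ K * (Nat.card V : ℝ) ^ e

/-- `H` is a depth-`r` minor of `G`: there are pairwise disjoint branch sets, each connected with
radius at most `r`, such that every edge of `H` is realised between the two branch sets. -/
def DepthMinor {V W : Type} (r : ℕ) (H : SimpleGraph W) (G : SimpleGraph V) : Prop :=
  ∃ B : W → Set V, (∀ i j, i ≠ j → Disjoint (B i) (B j)) ∧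
    (∀ i, ∃ x ∈ B i, ∀ y ∈ B i, ∃ p : G.Walk x y, p.length ≤ r ∧ ∀ w ∈ p.support, w ∈ B i) ∧
    ∀ i j, H.Adj i j → ∃ a ∈ B i, ∃ b ∈ B j, G.Adj a b

/-- The class has expansion bounded by `f`: every depth-`r` minor of every member has average degree
at most `f r`. -/
def ExpansionBoundedBy (C : (V : Type) → SimpleGraph V → Prop) (f : ℕ → ℝ) : Prop :=
  ∀ (V : Type) (_ : Finite V) (G : SimpleGraph V), C V G →
    ∀ (r : ℕ) (W : Type) (_ : Finite W) (_ : Nonempty W) (H : SimpleGraph W), DepthMinor r H G →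
      2 * (H.edgeSet.ncard : ℝ) / (Nat.card W : ℝ) ≤ f r

/-- The set `A` of the reals `c > 0` such that, for every `δ ∈ (0,1]`, every monotone class with
balanced separators of order `O(n^(1-δ))` has expansion bounded by some function
`O(r^(c/δ))`. -/
def A : Set ℝ :=
  {c | 0 < c ∧ ∀ δ : ℝ, 0 < δ → δ ≤ 1 → ∀ C : (V : Type) → SimpleGraph V → Prop,
    IsMonotone C → HasSeparators C (1 - δ) →
      ∃ f : ℕ → ℝ, f =O[atTop] (fun r : ℕ => (r : ℝ) ^ (c / δ)) ∧ ExpansionBoundedBy C f}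

open Pool.Agent.Results.MP_ec82ff_co.LinearSubdivision in
/-- The classes used in the proof: the subgraphs of the `s`-subdivisions of `K_D` with
`D ≤ s^m`. -/
def Cl (m : ℕ) (V : Type) (G : SimpleGraph V) : Prop :=
  ∃ D s : ℕ, 1 ≤ s ∧ D ≤ s ^ m ∧ G.IsContained (subdividedComplete D s)

lemma cl_monotone (m : ℕ) : IsMonotone (Cl m) := by
  rintro V W _ _ G H h ⟨D, s, h1, h2, h3⟩
  exact ⟨D, s, h1, h2, h.trans h3⟩

lemma cl_separators {m : ℕ} (hm : 1 ≤ m) : HasSeparators (Cl m) ((m : ℝ) / (m + 1)) := by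
  refine ⟨2, ?_⟩
  rintro V _ _ G ⟨D, s, hs, hD, ⟨φ⟩⟩
  have hN : 0 < Nat.card V := Nat.card_pos
  obtain ⟨N, hNd⟩ : ∃ N, N = Nat.card V := ⟨_, rfl⟩
  have hm1 : (0 : ℝ) < (m : ℝ) + 1 := by positivity
  have hNr : (1 : ℝ) ≤ (N : ℝ) := by
    have : 1 ≤ N := by omega
    exact_mod_cast this
  have hpow1 : (1 : ℝ) ≤ (N : ℝ) ^ ((m : ℝ) / (m + 1)) := Real.one_le_rpow hNr (by positivity)
  rcases Nat.lt_or_ge (s ^ (m + 1)) N with hA | hB
  · obtain ⟨S, hS1, hS2⟩ := Q109.SubSep.caseA φ.toHom φ.injective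
    refine ⟨S, ?_, ?_⟩
    · intro c
      have h1 := hS2 c
      have h2 : s ^ 2 ≤ s ^ (m + 1) := Nat.pow_le_pow_right hs (by omega)
      have h3 : 2 * s ≤ s ^ 2 + 1 := by nlinarith [sq_nonneg ((s : ℤ) - 1)]
      omega
    · rw [← hNd]
      have h1 : (S.ncard : ℝ) ≤ ((s ^ m : ℕ) : ℝ) := by exact_mod_cast hS1.trans hD
      have h2 : ((s ^ m : ℕ) : ℝ) ≤ (N : ℝ) ^ ((m : ℝ) / (m + 1)) := by
        have h3 : ((s ^ (m + 1) : ℕ) : ℝ) ≤ (N : ℝ) := by exact_mod_cast hA.le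
        have h4 : ((s ^ (m + 1) : ℕ) : ℝ) ^ ((m : ℝ) / (m + 1)) ≤ (N : ℝ) ^ ((m : ℝ) / (m + 1)) :=
          Real.rpow_le_rpow (by positivity) h3 (by positivity)
        have h5 : ((s ^ (m + 1) : ℕ) : ℝ) ^ ((m : ℝ) / (m + 1)) = ((s ^ m : ℕ) : ℝ) := by
          push_cast
          rw [← Real.rpow_natCast (s : ℝ) (m + 1), ← Real.rpow_mul (by positivity),
            ← Real.rpow_natCast (s : ℝ) m]
          congr 1
          push_cast
          field_simp
        rw [h5] at h4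
        exact h4
      have h3 : (0 : ℝ) ≤ (N : ℝ) ^ ((m : ℝ) / (m + 1)) := by positivity
      linarith
  · -- the least `q` with `N ≤ q^(m+1)`
    have hex : ∃ q, N ≤ q ^ (m + 1) := ⟨s, hB⟩
    classical
    obtain ⟨q, hqd⟩ : ∃ q, q = Nat.find hex := ⟨_, rfl⟩
    have hq1 : N ≤ q ^ (m + 1) := by rw [hqd]; exact Nat.find_spec hex
    have hqs : q ≤ s := by rw [hqd]; exact Nat.find_min' hex hB
    have hq0 : 0 < q := by
      rcases Nat.eq_zero_or_pos q with h | h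
      · rw [h, Nat.zero_pow (by omega)] at hq1
        omega
      · exact h
    have hq2 : (q - 1) ^ (m + 1) < N := by
      have := Nat.find_min hex (m := q - 1) (by rw [← hqd]; omega)
      omega
    have hq3 : 3 * (q - 1) ≤ 2 * N := by
      obtain ⟨x, hx⟩ : ∃ x, x = q - 1 := ⟨_, rfl⟩
      rw [← hx] at hq2 ⊢
      rcases Nat.lt_or_ge x 2 with h | h
      · interval_cases x
        · omega
        · rw [Nat.one_pow] at hq2
          omega
      · have h2 : x ^ 2 ≤ x ^ (m + 1) := Nat.pow_le_pow_right (by omega) (by omega)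
        nlinarith
    obtain ⟨S, hS1, hS2⟩ := Q109.SubSep.caseB φ.toHom φ.injective hq0 hqs (by rw [← hNd]; exact hq3)
      hN
    refine ⟨S, hS2, ?_⟩
    rw [← hNd] at hS1 ⊢
    -- `q ≥ N^(1/(m+1))`
    have h1 : (N : ℝ) ^ ((1 : ℝ) / (m + 1)) ≤ (q : ℝ) := by
      have h2 : (N : ℝ) ≤ ((q ^ (m + 1) : ℕ) : ℝ) := by exact_mod_cast hq1
      have h3 : (N : ℝ) ^ ((1 : ℝ) / (m + 1)) ≤ ((q ^ (m + 1) : ℕ) : ℝ) ^ ((1 : ℝ) / (m + 1)) :=
        Real.rpow_le_rpow (by positivity) h2 (by positivity)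
      have h4 : ((q ^ (m + 1) : ℕ) : ℝ) ^ ((1 : ℝ) / (m + 1)) = (q : ℝ) := by
        push_cast
        rw [← Real.rpow_natCast (q : ℝ) (m + 1), ← Real.rpow_mul (by positivity)]
        have : ((m + 1 : ℕ) : ℝ) * (1 / ((m : ℝ) + 1)) = 1 := by
          push_cast
          field_simp
        rw [this, Real.rpow_one]
      rw [h4] at h3
      exact h3
    have h2 : (q : ℝ) * ((S.ncard : ℝ) - 1) ≤ (N : ℝ) := by
      have h3 : ((q * (S.ncard - 1) : ℕ) : ℝ) ≤ (N : ℝ) := by exact_mod_cast hS1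
      rw [Nat.cast_mul] at h3
      have h4 : (S.ncard : ℝ) - 1 ≤ ((S.ncard - 1 : ℕ) : ℝ) := by
        rw [sub_le_iff_le_add]
        have : S.ncard ≤ S.ncard - 1 + 1 := by omega
        exact_mod_cast this
      have h5 : (0 : ℝ) ≤ (q : ℝ) := by positivity
      nlinarith
    have hNpos : (0 : ℝ) < (N : ℝ) := by linarith
    have h3 : (N : ℝ) = (N : ℝ) ^ ((1 : ℝ) / (m + 1)) * (N : ℝ) ^ ((m : ℝ) / (m + 1)) := by
      rw [← Real.rpow_add hNpos, ← add_div, add_comm (1 : ℝ) (m : ℝ), div_self (ne_of_gt hm1),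
        Real.rpow_one]
    have h4 : (S.ncard : ℝ) - 1 ≤ (N : ℝ) ^ ((m : ℝ) / (m + 1)) := by
      by_contra hc
      rw [not_le] at hc
      have hp : (0 : ℝ) < (N : ℝ) ^ ((1 : ℝ) / (m + 1)) := by positivity
      have h5 : (N : ℝ) < (q : ℝ) * ((S.ncard : ℝ) - 1) := by
        calc (N : ℝ) = (N : ℝ) ^ ((1 : ℝ) / (m + 1)) * (N : ℝ) ^ ((m : ℝ) / (m + 1)) := h3
          _ < (N : ℝ) ^ ((1 : ℝ) / (m + 1)) * ((S.ncard : ℝ) - 1) :=
            mul_lt_mul_of_pos_left hc hp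
          _ ≤ (q : ℝ) * ((S.ncard : ℝ) - 1) := by
            apply mul_le_mul_of_nonneg_right h1
            linarith
      linarith
    linarith

open Pool.Agent.Results.MP_ec82ff_co.LinearSubdivision in
/-- Every element of `A` is at least `1`, that is, `c* = inf A ≥ 1`. -/
theorem result : ∀ c ∈ A, 1 ≤ c := by
  rintro c ⟨hc0, hc⟩
  by_contra hlt
  rw [not_le] at hlt
  -- choose `m` with `c (m+1) < m`
  obtain ⟨m, hm⟩ := exists_nat_gt (c / (1 - c))
  have h1c : (0 : ℝ) < 1 - c := by linarith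
  have hm1 : 1 ≤ m := by
    have : (0 : ℝ) < (m : ℝ) := lt_of_le_of_lt (by positivity) hm
    exact_mod_cast this
  have hcm : c * ((m : ℝ) + 1) < m := by
    rw [div_lt_iff₀ h1c] at hm
    linarith
  have hmr : (0 : ℝ) < (m : ℝ) + 1 := by positivity
  have hδ : (1 : ℝ) - 1 / ((m : ℝ) + 1) = (m : ℝ) / (m + 1) := by
    field_simp
    ring
  obtain ⟨f, hf, hexp⟩ := hc (1 / ((m : ℝ) + 1)) (by positivity)
    (by rw [div_le_one hmr]; have : (0:ℝ) ≤ (m : ℝ) := by positivity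
        linarith)
    (Cl m) (cl_monotone m) (by rw [hδ]; exact cl_separators hm1)
  -- lower bound on `f`
  have hlow : ∀ s : ℕ, 1 ≤ s → (s : ℝ) ^ m - 1 ≤ f s := by
    intro s hs
    have hpos : 0 < s ^ m := Nat.pow_pos hs
    have : Nonempty (Fin (s ^ m)) := ⟨⟨0, hpos⟩⟩
    have h1 := hexp _ inferInstance (subdividedComplete (s ^ m) s)
      ⟨s ^ m, s, hs, le_rfl, SimpleGraph.IsContained.refl _⟩ s (Fin (s ^ m)) inferInstance this
      (⊤ : SimpleGraph (Fin (s ^ m)))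
      ⟨branch, (model hs).disj, (model hs).rad, (model hs).edge⟩
    have h2 : ((⊤ : SimpleGraph (Fin (s ^ m))).edgeSet.ncard : ℝ) =
        ((s ^ m : ℕ) : ℝ) * (((s ^ m : ℕ) : ℝ) - 1) / 2 := by
      have h3 : (⊤ : SimpleGraph (Fin (s ^ m))).edgeSet.ncard = (s ^ m).choose 2 := by
        rw [← SimpleGraph.coe_edgeFinset, Set.ncard_coe_finset,
          SimpleGraph.card_edgeFinset_top_eq_card_choose_two, Fintype.card_fin]
      rw [h3, Nat.cast_choose_two]
    rw [h2, Nat.card_fin] at h1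
    have h3 : (0 : ℝ) < ((s ^ m : ℕ) : ℝ) := by exact_mod_cast hpos
    have h4 : 2 * (((s ^ m : ℕ) : ℝ) * (((s ^ m : ℕ) : ℝ) - 1) / 2) / ((s ^ m : ℕ) : ℝ) =
        ((s ^ m : ℕ) : ℝ) - 1 := by
      field_simp
    rw [h4] at h1
    have h5 : ((s ^ m : ℕ) : ℝ) = (s : ℝ) ^ m := by push_cast; ring
    rw [h5] at h1
    exact h1
  -- contradiction for large `s`
  obtain ⟨K, hK⟩ := hf.bound
  have hexpo : c / (1 / ((m : ℝ) + 1)) = c * ((m : ℝ) + 1) := by
    field_simp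
  have hlim : Tendsto (fun s : ℕ => (s : ℝ) ^ ((m : ℝ) - c * ((m : ℝ) + 1))) atTop atTop :=
    (tendsto_rpow_atTop (by linarith)).comp tendsto_natCast_atTop_atTop
  have hev := (hlim.eventually (eventually_gt_atTop (|K| + 1))).and
    (hK.and (eventually_ge_atTop 1))
  obtain ⟨s, h1, h2, h3⟩ := hev.exists
  have hs : (1 : ℝ) ≤ (s : ℝ) := by exact_mod_cast h3
  have hs0 : (0 : ℝ) < (s : ℝ) := by linarith
  rw [hexpo, Real.norm_eq_abs, Real.norm_eq_abs] at h2
  have h4 : (1 : ℝ) ≤ (s : ℝ) ^ (c * ((m : ℝ) + 1)) := Real.one_le_rpow hs (by positivity)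
  have h5 := hlow s h3
  have h6 : f s ≤ |K| * (s : ℝ) ^ (c * ((m : ℝ) + 1)) := by
    calc f s ≤ |f s| := le_abs_self _
      _ ≤ K * |(s : ℝ) ^ (c * ((m : ℝ) + 1))| := h2
      _ = K * (s : ℝ) ^ (c * ((m : ℝ) + 1)) := by rw [abs_of_nonneg (by positivity)]
      _ ≤ |K| * (s : ℝ) ^ (c * ((m : ℝ) + 1)) := by
        apply mul_le_mul_of_nonneg_right (le_abs_self _) (by positivity)
  have h7 : (s : ℝ) ^ m = (s : ℝ) ^ ((m : ℝ) - c * ((m : ℝ) + 1)) *
      (s : ℝ) ^ (c * ((m : ℝ) + 1)) := by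
    rw [← Real.rpow_add hs0, sub_add_cancel, Real.rpow_natCast]
  have h8 : (|K| + 1) * (s : ℝ) ^ (c * ((m : ℝ) + 1)) < (s : ℝ) ^ m := by
    rw [h7]
    exact mul_lt_mul_of_pos_right h1 (by positivity)
  nlinarith

end Pool.Agent.Results.MP_2f3b43_co.ExponentAtLeastOne
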